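import Mathlib
import Pool.Agent.TH854.KS.K7

open Finset

/-!
# Lower bounds for the minimal dimension from all primes

For a prime `p` with `p - 1` dividing the degree `k`, every `k`-th power is `0` or `1` modulo
`p ^ (v_p(k) + 1)` (modulo `2 ^ (v_2(k) + 2)` if `p = 2` and `k` is even).  In a dimension below
this modulus every lattice point on the sphere of radius `p ^ j` is `p` times a lattice point of
the sphere of radius `p ^ (j - 1)`, so the number of lattice points stays bounded along these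
radii.
-/

namespace Pool.Agent.Results.MP_927be3_nt.LocalLowerBound

/-- The arithmetic `k`-sphere `S_{k,d}(r)` of radius `r` in dimension `d`. -/
def sphere (k d : ℕ) (r : ℝ) : Set (Fin d → ℤ) := {m | ∑ i, |(m i : ℝ)| ^ k = r ^ k}

/-- `N_{k,d}(r) ≍ r^{d-k}`: there are `0 < c ≤ C` and `r₀` with `c r^{d-k} ≤ N_{k,d}(r) ≤ C r^{d-k}`
for all radii `r ≥ r₀`, `r > 0`, with non-empty `S_{k,d}(r)`. -/
def OrderHolds (k d : ℕ) : Prop :=
  ∃ c C r₀ : ℝ, 0 < c ∧ c ≤ C ∧ ∀ r : ℝ, 0 < r → r₀ ≤ r → (sphere k d r).Nonempty →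
    c * r ^ ((d : ℝ) - k) ≤ ((sphere k d r).ncard : ℝ) ∧
      ((sphere k d r).ncard : ℝ) ≤ C * r ^ ((d : ℝ) - k)

/-- If the order of magnitude `N_{k,d}(r) ≍ r^{d-k}` holds in dimension `d ≥ 1` for the degree
`k ≥ 3`, then `d ≥ 2 ^ (v_2(k) + 2)` if `k` is even, and `d ≥ p ^ (v_p(k) + 1)` for every prime
`p` such that `p - 1` divides `k`. -/
theorem result (k : ℕ) (hk : 3 ≤ k) (d : ℕ) (hd : 1 ≤ d) (h : OrderHolds k d) :
    (Even k → 2 ^ (padicValNat 2 k + 2) ≤ d) ∧
      ∀ p : ℕ, p.Prime → (p - 1) ∣ k → p ^ (padicValNat p k + 1) ≤ d := by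
  obtain ⟨c, C, r₀, hc, _, h⟩ := h
  have hH : Pool.Agent.TH854.KS.Holds k d := ⟨c, C, r₀, hc, h⟩
  have h2 : k + 2 ≤ d := by
    by_contra hcon
    exact Pool.Agent.TH854.KS.fails_low hk hd (by omega) hH
  refine ⟨?_, ?_⟩
  · intro he
    have hτ : 1 ≤ padicValNat 2 k := by
      have : Fact (Nat.Prime 2) := ⟨Nat.prime_two⟩
      exact one_le_padicValNat_of_dvd (by omega) he.two_dvd
    exact Pool.Agent.TH854.KS.bound_two hk (by omega) hH hτ pow_padicValNat_dvd
  · intro p hp hdvd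
    refine Pool.Agent.TH854.KS.bound_odd hk (by omega) hH hp ?_
    refine Nat.Coprime.mul_dvd_of_dvd_of_dvd ?_ hdvd pow_padicValNat_dvd
    apply Nat.Coprime.pow_right
    have h1 := hp.two_le
    have h3 : Nat.Coprime (p - 1) p := by
      rw [Nat.coprime_comm]
      exact (Nat.Prime.coprime_iff_not_dvd hp).mpr
        (fun h => absurd (Nat.le_of_dvd (by omega) h) (by omega))
    exact h3

end Pool.Agent.Results.MP_927be3_nt.LocalLowerBound
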